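import Pool.Agent.E8helper61.EF.Stm

/-! Project EF, piece SMALL. -/

set_option autoImplicit false

open Finset

namespace Pool.Agent.E8helper64.EF

open Pool.Agent.E8helper61.EF

theorem blk_card {n r t : ℕ} (h : r + t < n) : (blk n r t).card = t + 1 := by
  have h1 : (blk n r t).image Fin.val = Icc r (r + t) := by
    ext x
    simp only [blk, mem_image, mem_filter, mem_univ, true_and, mem_Icc]
    constructor
    · rintro ⟨y, hy, rfl⟩
      exact hy
    · intro hx
      exact ⟨⟨x, by omega⟩, hx, rfl⟩
  rw [← card_image_of_injective _ Fin.val_injective, h1, Nat.card_Icc]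
  omega

/-- a set with `t + 1` elements, all at least `r`, can be shifted to the block -/
theorem to_blk {n r t : ℕ} (h : r + t < n) {A : Finset (Finset (Fin n))} (hS : Shifted A)
    {X : Finset (Fin n)} (hX : X ∈ A) (hc : X.card = t + 1) (hr : ∀ x ∈ X, r ≤ x.val) :
    blk n r t ∈ A := by
  classical
  obtain ⟨Y, hY, hmin⟩ := exists_min_image
    (A.filter (fun Y => Y.card = t + 1 ∧ ∀ x ∈ Y, r ≤ x.val)) (fun Y => ∑ x ∈ Y, x.val)
    ⟨X, mem_filter.mpr ⟨hX, hc, hr⟩⟩
  rw [mem_filter] at hY
  obtain ⟨hYA, hYc, hYr⟩ := hY
  by_cases hYb : Y = blk n r t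
  · rw [← hYb]
    exact hYA
  exfalso
  have h1 : ¬ blk n r t ⊆ Y := fun hs =>
    hYb (eq_of_subset_of_card_le hs (by rw [blk_card h, hYc])).symm
  have h2 : ¬ Y ⊆ blk n r t := fun hs =>
    hYb (eq_of_subset_of_card_le hs (by rw [blk_card h, hYc]))
  obtain ⟨i, hi, hiY⟩ := not_subset.mp h1
  obtain ⟨j, hj, hjb⟩ := not_subset.mp h2
  simp only [blk, mem_filter, mem_univ, true_and] at hi hjb
  have hjr := hYr j hj
  have hij' : i.val < j.val := by omega
  have hij : i < j := hij'
  have hni : i ∉ Y.erase j := fun hh => hiY (mem_of_mem_erase hh)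
  have h4 := hmin (insert i (Y.erase j)) (by
    rw [mem_filter]
    refine ⟨hS Y hYA i j hij hj hiY, ?_, ?_⟩
    · rw [card_insert_of_notMem hni, card_erase_of_mem hj]
      omega
    · intro x hx
      rw [mem_insert] at hx
      rcases hx with rfl | hx
      · exact hi.1
      · exact hYr x (mem_of_mem_erase hx))
  rw [sum_insert hni] at h4
  have h5 := add_sum_erase Y (fun x => x.val) hj
  omega

theorem small : SmallStatement := by
  classical
  intro n k d A hk hn hd hD hS hb
  unfold gg
  obtain ⟨r, hr⟩ : ∃ r, r = d % k := ⟨_, rfl⟩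
  obtain ⟨t, ht⟩ : ∃ t, t = d / k := ⟨_, rfl⟩
  rw [← hr, ← ht] at hb ⊢
  have hrt : r + t < n := by
    have h1 := Nat.div_add_mod d k
    rw [← hr, ← ht] at h1
    have h2 : t ≤ k * t := Nat.le_mul_of_pos_left _ hk
    omega
  have hle : ∀ B ∈ A, (far r B).card ≤ t := by
    intro B hB
    by_contra hcon
    push Not at hcon
    obtain ⟨X, hX, hXc⟩ := exists_subset_card_eq (s := far r B) (n := t + 1) (by omega)
    apply hb
    apply to_blk hrt hS (hD B hB X (hX.trans (filter_subset _ _))) hXc
    intro x hx
    exact (mem_filter.mp (hX hx)).2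
  set L : Finset (Fin n) := univ.filter (fun x => x.val < r) with hL
  set H : Finset (Fin n) := univ.filter (fun x => r ≤ x.val) with hH
  have hLc : L.card ≤ r := by
    rw [← card_image_of_injective L Fin.val_injective]
    calc (L.image Fin.val).card ≤ (range r).card := by
          apply card_le_card
          intro x hx
          rw [mem_image] at hx
          obtain ⟨y, hy, rfl⟩ := hx
          rw [mem_range]
          exact (mem_filter.mp hy).2
      _ = r := card_range r
  have hHc : H.card ≤ n - r := by
    rw [← card_image_of_injective H Fin.val_injective]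
    calc (H.image Fin.val).card ≤ (Ico r n).card := by
          apply card_le_card
          intro x hx
          rw [mem_image] at hx
          obtain ⟨y, hy, rfl⟩ := hx
          rw [mem_Ico]
          exact ⟨(mem_filter.mp hy).2, y.2⟩
      _ = n - r := Nat.card_Ico r n
  have hcard : A.card ≤ (L.powerset ×ˢ (range (t + 1)).biUnion (fun j => powersetCard j H)).card := by
    apply card_le_card_of_injOn (fun B => (near r B, far r B))
    · intro B hB
      rw [mem_coe, mem_product, mem_powerset, mem_biUnion]
      refine ⟨filter_subset_filter _ (subset_univ _), (far r B).card, ?_, ?_⟩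
      · rw [mem_range]
        have := hle B hB
        omega
      · rw [mem_powersetCard]
        exact ⟨filter_subset_filter _ (subset_univ _), rfl⟩
    · intro B _ C _ hBC
      simp only [Prod.mk.injEq] at hBC
      obtain ⟨h1, h2⟩ := hBC
      ext x
      rcases lt_or_ge x.val r with hx | hx
      · have h3 : x ∈ near r B ↔ x ∈ near r C := by rw [h1]
        simpa [near, hx] using h3
      · have h3 : x ∈ far r B ↔ x ∈ far r C := by rw [h2]
        simpa [far, hx] using h3
  refine hcard.trans ?_
  rw [card_product, card_powerset]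
  apply Nat.mul_le_mul (Nat.pow_le_pow_right (by norm_num) hLc)
  refine card_biUnion_le.trans ?_
  apply sum_le_sum
  intro j _
  rw [card_powersetCard]
  exact Nat.choose_le_choose j hHc

end Pool.Agent.E8helper64.EF
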