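import Pool.Agent.E8helper61.EF.Stm3
import Pool.Agent.E8helper64.EF.Small

/-! Project EF, piece BLK. -/

set_option autoImplicit false

open Finset

namespace Pool.Agent.E8helper64.EF

open Pool.Agent.E8helper61.EF

/-- a member of `A` with `i + 1` elements, all at most `r + i` and outside `U` -/
theorem exists_E (hM : MoveStatement) {n i r : ℕ} {A : Finset (Finset (Fin n))} (hD : Down A)
    (hS : Shifted A) (hrn : r + i < n) (hb : blk n r i ∈ A) (U : Finset (Fin n))
    (hU : U.card ≤ r) :
    ∃ E ∈ A, E.card = i + 1 ∧ Disjoint E U ∧ ∀ x ∈ E, x.val ≤ r + i := by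
  classical
  obtain ⟨L, hLdef⟩ : ∃ L : Finset (Fin n), L = univ.filter (fun x => x.val < r) := ⟨_, rfl⟩
  have hLm : ∀ x : Fin n, x ∈ L ↔ x.val < r := by
    intro x; rw [hLdef]; simp
  have hbm : ∀ x : Fin n, x ∈ blk n r i ↔ r ≤ x.val ∧ x.val ≤ r + i := by
    intro x; simp [blk]
  have hL : L.card = r := by
    have h1 : L.image Fin.val = range r := by
      ext x
      rw [mem_image, mem_range]
      constructor
      · rintro ⟨y, hy, rfl⟩
        exact (hLm y).mp hy
      · intro hx
        exact ⟨⟨x, by omega⟩, (hLm _).mpr hx, rfl⟩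
    rw [← card_image_of_injective L Fin.val_injective, h1, card_range]
  obtain ⟨X, hX⟩ : ∃ X, X = blk n r i ∩ U := ⟨_, rfl⟩
  have h1 : X.card ≤ (L \ U).card := by
    have e1 : (L \ U).card + (L ∩ U).card = L.card := card_sdiff_add_card_inter L U
    have hdis : Disjoint (L ∩ U) X := by
      rw [disjoint_left]
      intro x hx hx2
      rw [hX, mem_inter] at hx2
      have a1 := (hLm x).mp (mem_inter.mp hx).1
      have a2 := ((hbm x).mp hx2.1).1
      omega
    have e2 : (L ∩ U).card + X.card ≤ U.card := by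
      rw [← card_union_of_disjoint hdis]
      apply card_le_card
      rw [hX]
      exact union_subset inter_subset_right inter_subset_right
    omega
  obtain ⟨Y, hY, hYc⟩ := exists_subset_card_eq h1
  have hYL : ∀ y ∈ Y, y.val < r := fun y hy => (hLm y).mp (mem_sdiff.mp (hY hy)).1
  have hYU : ∀ y ∈ Y, y ∉ U := fun y hy => (mem_sdiff.mp (hY hy)).2
  have hdY : Disjoint Y (blk n r i \ X) := by
    rw [disjoint_left]
    intro y hy hy2
    have a1 := hYL y hy
    have a2 := ((hbm y).mp (mem_sdiff.mp hy2).1).1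
    omega
  have hXb : X ⊆ blk n r i := by rw [hX]; exact inter_subset_left
  refine ⟨(blk n r i \ X) ∪ Y, hM n A hD hS _ hb X Y hXb hYc.le hdY ?_, ?_, ?_, ?_⟩
  · intro y hy x hx
    have a1 := hYL y hy
    have a2 := ((hbm x).mp (hXb hx)).1
    have a3 : y.val < x.val := by omega
    exact a3
  · rw [card_union_of_disjoint hdY.symm, card_sdiff_of_subset hXb, blk_card hrn, hYc]
    have := card_le_card hXb
    rw [blk_card hrn] at this
    omega
  · rw [disjoint_left]
    intro x hx hxU
    rw [mem_union, mem_sdiff] at hx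
    rcases hx with ⟨hx1, hx2⟩ | hx
    · apply hx2
      rw [hX, mem_inter]
      exact ⟨hx1, hxU⟩
    · exact hYU x hx hxU
  · intro x hx
    rw [mem_union, mem_sdiff] at hx
    rcases hx with ⟨hx1, _⟩ | hx
    · exact ((hbm x).mp hx1).2
    · have := hYL x hx
      omega

theorem key (hF : FreeStatement) (hM : MoveStatement) {n m d i : ℕ}
    {A : Finset (Finset (Fin n))} (hm : 1 ≤ m) (hd : d ≤ n) (hi : 1 ≤ i) (hk : (m + 1) * i ≤ d)
    (hD : Down A) (hS : Shifted A) (hK : KU (m + 1) d A) (hb : blk n (d - (m + 1) * i) i ∈ A)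
    (g : Fin m → Finset (Fin n)) (hg : ∀ j, g j ∈ NF A d i) :
    (univ.biUnion g).card < d - (m + 1) * i := by
  classical
  by_contra hcon
  push Not at hcon
  have hex : ∀ j, ∃ B ∈ A, (far d B).card = i ∧ near d B = g j := by
    intro j
    have h := hg j
    unfold NF at h
    rw [mem_image] at h
    obtain ⟨B, hB, hBg⟩ := h
    rw [mem_filter] at hB
    exact ⟨B, hB.1, hB.2, hBg⟩
  choose B hBA hBf hBg using hex
  obtain ⟨r, hr⟩ : ∃ r, r = d - (m + 1) * i := ⟨_, rfl⟩
  rw [← hr] at hcon hb
  have hmi : i ≤ m * i := Nat.le_mul_of_pos_left _ hm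
  have hexp : (m + 1) * i = m * i + i := by ring
  rw [hexp] at hk hr
  -- the union is not larger
  have hU : (univ.biUnion g).card ≤ r := by
    have h1 := hF hM n (m + 1) d A (by omega) hd hD hS hK
      (Fin.cons (α := fun _ => Finset (Fin n)) (B ⟨0, hm⟩) B) (by
        intro j
        refine Fin.cases ?_ (fun j => ?_) j
        · rw [Fin.cons_zero]; exact hBA _
        · rw [Fin.cons_succ]; exact hBA _)
    rw [Fin.sum_univ_succ] at h1
    simp only [Fin.cons_zero, Fin.cons_succ, hBf, sum_const, card_univ, Fintype.card_fin,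
      smul_eq_mul] at h1
    have h2 : (univ.biUnion g).card ≤ (univ.biUnion (fun j : Fin (m + 1) =>
        near d (Fin.cons (α := fun _ => Finset (Fin n)) (B ⟨0, hm⟩) B j))).card := by
      apply card_le_card
      intro x hx
      rw [mem_biUnion] at hx ⊢
      obtain ⟨j, _, hj⟩ := hx
      refine ⟨j.succ, mem_univ _, ?_⟩
      rw [Fin.cons_succ, hBg]
      exact hj
    omega
  obtain ⟨E, hE, hEc, hEU, hEle⟩ := exists_E hM hD hS (by omega) hb (univ.biUnion g) hU
  have h1 := hF hM n (m + 1) d A (by omega) hd hD hS hK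
    (Fin.cons (α := fun _ => Finset (Fin n)) E B) (by
      intro j
      refine Fin.cases ?_ (fun j => ?_) j
      · rw [Fin.cons_zero]; exact hE
      · rw [Fin.cons_succ]; exact hBA _)
  rw [Fin.sum_univ_succ] at h1
  simp only [Fin.cons_zero, Fin.cons_succ, hBf, sum_const, card_univ, Fintype.card_fin,
    smul_eq_mul] at h1
  have h2 : (univ.biUnion g ∪ E).card ≤ (univ.biUnion (fun j : Fin (m + 1) =>
      near d (Fin.cons (α := fun _ => Finset (Fin n)) E B j))).card := by
    apply card_le_card
    intro x hx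
    rw [mem_union] at hx
    rw [mem_biUnion]
    rcases hx with hx | hx
    · rw [mem_biUnion] at hx
      obtain ⟨j, _, hj⟩ := hx
      refine ⟨j.succ, mem_univ _, ?_⟩
      rw [Fin.cons_succ, hBg]
      exact hj
    · refine ⟨0, mem_univ _, ?_⟩
      rw [Fin.cons_zero]
      unfold near
      rw [mem_filter]
      have := hEle x hx
      exact ⟨hx, by omega⟩
  rw [card_union_of_disjoint hEU.symm, hEc] at h2
  omega

theorem blkT : BlkStatement := by
  intro hF hM n k d i A hk hd hi hki hD hS hK hb
  obtain ⟨m, rfl⟩ : ∃ m, k = m + 1 := ⟨k - 1, by omega⟩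
  have hm : 1 ≤ m := by omega
  refine ⟨?_, ?_⟩
  · intro hr g hg
    have h := key hF hM hm hd hi hki hD hS hK hb g hg
    omega
  · intro hr
    rw [eq_empty_iff_forall_notMem]
    intro C hC
    have h := key hF hM hm hd hi hki hD hS hK hb (fun _ => C) (fun _ => hC)
    omega

end Pool.Agent.E8helper64.EF
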